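/-
Disproof of the slow-switching evanescence conjecture (problem MP_adc20b_pr, Q1).

The example has three species and two environments, switching at rate `κ` in both directions:
* environment 1: `0 → S₁`, `S₁ → S₂`, `S₂ → 2 S₂` at rate `1`, `S₃ → 0` at rate `3`;
* environment 2: `0 → S₁`, `S₁ → S₃`, `S₃ → 2 S₃` at rate `1`, `S₂ → 0` at rate `3`;
with `v¹ = (1, 2, 0)`, `v² = (1, 0, 2)`, so that `S = {1}`.

For every `κ > 0` the chain is irreducible and has a Foster-Lyapunov function, built from harmonic
numbers, so no state is evanescent.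
-/
import Pool.Agent.Lib.Helper98.SwitchExample2

set_option autoImplicit false

open MeasureTheory ProbabilityTheory Filter Set
open scoped ENNReal

namespace Pool.Agent.Results.MP_adc20b_pr.NoEvanescence

open Pool.Agent.Switch98

/-- There are two at-most-monomolecular mass-action networks `R 0`, `R 1` on three species with
matrices `M 0`, `M 1`, an irreducible rate matrix `Q` of the environment and nonnegative vectors
`v 0`, `v 1` with `(v i ᵥ* M i) m > 0` for all `m` in the support of `v i` and with a common point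
in the supports, such that for *every* `κ > 0` the mixed process `Z_κ` is irreducible and, from
every initial state, it exists and is not evanescent. -/
theorem result :
    ∃ (R : Fin 2 → Network 3) (Q : Matrix (Fin 2) (Fin 2) ℝ)
      (M : Fin 2 → Matrix (Fin 3) (Fin 3) ℝ) (v : Fin 2 → Fin 3 → ℝ),
      IsIrreducibleRateMatrix Q ∧ (∀ i, (R i).IsMatrix (M i)) ∧ (∀ i m, 0 ≤ v i m) ∧
      (∀ i m, v i m ≠ 0 → 0 < (Matrix.vecMul (v i) (M i)) m) ∧ (∃ m, ∀ j, v j m ≠ 0) ∧
      ∀ κ : ℝ, 0 < κ →
        (∀ s s' : State 3 2,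
          Relation.ReflTransGen (fun a b => 0 < mixedRate R Q κ a b) s s') ∧
        ∀ s : State 3 2,
          (∃ (Ω : Type) (_ : MeasurableSpace Ω) (P : Measure Ω) (Z : ℝ → Ω → State 3 2),
            IsProbabilityMeasure P ∧ IsCTMC P (mixedRate R Q κ) s Z) ∧
          ¬ Evanescent (mixedRate R Q κ) s := by
  refine ⟨exNet, exQ, ![mat0, mat1], ![![1, 2, 0], ![1, 0, 2]], exQ_irred, ?_, ?_, ?_, ?_, ?_⟩
  · intro i
    fin_cases i
    · exact isMatrix_net0
    · exact isMatrix_net1
  · intro i m
    fin_cases i <;> fin_cases m <;> simp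
  · intro i m
    fin_cases i <;> fin_cases m <;>
      simp [Matrix.vecMul, dotProduct, Fin.sum_univ_three, mat0, mat1]
  · refine ⟨0, fun j => ?_⟩
    fin_cases j <;> simp
  · intro κ hκ
    refine ⟨ex_irreducible hκ, fun s => ⟨?_, ex_not_evanescent hκ s⟩⟩
    exact exists_ctmc (mixedRate exNet exQ κ) (ex_prob hκ) s

end Pool.Agent.Results.MP_adc20b_pr.NoEvanescence
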